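import Mathlib
import Pool.Agent.Lib.MP_f702fa_pr.Upper
import Pool.Agent.Lib.MP_f702fa_pr.Transfer

open MeasureTheory Finset Filter
open Pool.Agent.Lib.MP_f702fa_pr
open scoped ENNReal

namespace Pool.Agent.Results.MP_f702fa_pr.LimitConstant

/-- Order-`n` `k`-dimensional permutations: zero-one arrays indexed by `[n]^(k+1)` such that every
line (fix all coordinates but the `j`-th one) contains exactly one entry equal to `1`. -/
def HDPerm (k n : ℕ) : Set ((Fin (k + 1) → Fin n) → Fin 2) :=
  {A | ∀ (α : Fin (k + 1) → Fin n) (j : Fin (k + 1)), ∃! i : Fin n,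
    A (Function.update α j i) = 1}

/-- `s` is a monotone subsequence of length `m` of the array `A`: a sequence of positions of
entries `1` which is strictly increasing or strictly decreasing in every coordinate. -/
def IsMonoSeq {k n : ℕ} (A : (Fin (k + 1) → Fin n) → Fin 2) (m : ℕ)
    (s : Fin m → Fin (k + 1) → Fin n) : Prop :=
  (∀ i, A (s i) = 1) ∧ ∀ j, StrictMono (fun i => s i j) ∨ StrictAnti (fun i => s i j)

/-- The length of the longest monotone subsequence. -/
noncomputable def H {k n : ℕ} (A : (Fin (k + 1) → Fin n) → Fin 2) : ℕ :=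
  sSup {m | ∃ s : Fin m → Fin (k + 1) → Fin n, IsMonoSeq A m s}

/-- The probability of the event `E` for a uniformly random element of `HDPerm k n`. -/
noncomputable def prob (k n : ℕ) (E : Set ((Fin (k + 1) → Fin n) → Fin 2)) : ℝ :=
  ((HDPerm k n ∩ E).ncard : ℝ) / ((HDPerm k n).ncard : ℝ)

/-- The set `HDPerm k n` is nonempty for `n ≥ 1`: take the positions with coordinate sum `0`
modulo `n`. -/
lemma hdPerm_nonempty (k n : ℕ) (hn : 0 < n) : (HDPerm k n).Nonempty := by
  classical
  have : NeZero n := ⟨hn.ne'⟩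
  refine ⟨fun α => if ∑ j, α j = 0 then 1 else 0, fun α j => ?_⟩
  have h : ∀ i : Fin n, ∑ j', Function.update α j i j' = i + ∑ j' ∈ univ.erase j, α j' := by
    intro i
    rw [← Finset.add_sum_erase univ _ (mem_univ j), Function.update_self]
    congr 1
    exact Finset.sum_congr rfl fun j' hj' => Function.update_of_ne (ne_of_mem_erase hj') _ _
  refine ⟨-∑ j' ∈ univ.erase j, α j', ?_, fun i hi => ?_⟩
  · simp only
    rw [h, neg_add_cancel, if_pos rfl]
  · simp only at hi
    rw [h] at hi
    by_contra hne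
    have h2 : ¬ (i + ∑ j' ∈ univ.erase j, α j' = 0) := fun h3 => hne (eq_neg_of_add_eq_zero_left h3)
    rw [if_neg h2] at hi
    exact absurd hi (by decide)

section Aux

variable {k n : ℕ}

/-- the support. -/
noncomputable def supp (A : (Fin (k + 1) → Fin n) → Fin 2) : Finset (Fin (k + 1) → Fin n) := by
  classical
  exact univ.filter fun α => A α = 1

lemma mem_supp {A : (Fin (k + 1) → Fin n) → Fin 2} {α : Fin (k + 1) → Fin n} :
    α ∈ supp A ↔ A α = 1 := by
  classical
  simp [supp]

lemma eq_of_agree {A : (Fin (k + 1) → Fin n) → Fin 2} (hA : A ∈ HDPerm k n)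
    {α β : Fin (k + 1) → Fin n} (hα : A α = 1) (hβ : A β = 1) (j : Fin (k + 1))
    (h : ∀ i, i ≠ j → α i = β i) : α = β := by
  obtain ⟨i0, -, hu⟩ := hA α j
  have h1 : α j = i0 := hu (α j) (by simp only [Function.update_eq_self]; exact hα)
  have h2 : β j = i0 := by
    refine hu (β j) ?_
    have : Function.update α j (β j) = β := by
      funext i
      by_cases hi : i = j
      · subst hi; simp
      · rw [Function.update_of_ne hi]; exact h i hi
    simp only [this]; exact hβ
  funext i
  by_cases hi : i = j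
  · subst hi; rw [h1, h2]
  · exact h i hi

lemma card_supp (hn : 0 < n) {A : (Fin (k + 1) → Fin n) → Fin 2} (hA : A ∈ HDPerm k n) :
    (supp A).card = n ^ k := by
  classical
  have : (supp A).card = (univ : Finset (Fin k → Fin n)).card := by
    refine Finset.card_bij (fun α _ => Fin.tail α) (fun _ _ => mem_univ _) ?_ ?_
    · intro α hα β hβ h
      refine eq_of_agree hA (mem_supp.mp hα) (mem_supp.mp hβ) 0 fun i hi => ?_
      obtain ⟨i', rfl⟩ := Fin.exists_succ_eq.mpr hi
      exact congrFun h i'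
    · intro β _
      obtain ⟨i, hi, -⟩ := hA (Fin.cons (⟨0, hn⟩ : Fin n) β) 0
      refine ⟨_, mem_supp.mpr hi, ?_⟩
      funext i'
      simp [Fin.tail]
  rw [this]
  simp

lemma reg_supp (hn : 0 < n) {A : (Fin (k + 1) → Fin n) → Fin 2} (hA : A ∈ HDPerm k n) :
    Reg (supp A) (1 / (n : ℝ)) := by
  classical
  have hn' : (0 : ℝ) < n := by exact_mod_cast hn
  intro α hα T S hS hSα
  rw [card_supp hn hA]
  by_cases hT : T = univ
  · have : S = ∅ := by
      rw [Finset.eq_empty_iff_forall_notMem]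
      intro β hβ
      obtain ⟨hne, h⟩ := hSα β hβ
      exact hne (funext fun j => (h j (by rw [hT]; exact mem_univ j)).symm)
    rw [this]
    simp only [card_empty, Nat.cast_zero]
    positivity
  · obtain ⟨j, hj⟩ : ∃ j, j ∉ T := by
      by_contra hcon
      push Not at hcon
      exact hT (Finset.eq_univ_iff_forall.mpr hcon)
    set U : Finset (Fin (k + 1)) := (insert j T)ᶜ with hU
    have hUcard : U.card = k - T.card := by
      rw [hU, card_compl, card_insert_of_notMem hj, Fintype.card_fin]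
      omega
    have hTk : T.card ≤ k := by
      have h1 : (insert j T).card ≤ k + 1 := by
        have := card_le_univ (insert j T)
        simpa using this
      rw [card_insert_of_notMem hj] at h1
      omega
    have hle : S.card ≤ n ^ (k - T.card) := by
      have h1 : S.card ≤ (univ : Finset (U → Fin n)).card := by
        refine Finset.card_le_card_of_injOn (fun β (i : U) => β i) (fun _ _ => by simp) ?_
        intro β hβ β' hβ' h
        have hb := hSα β (mem_coe.mp hβ)
        have hb' := hSα β' (mem_coe.mp hβ')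
        refine eq_of_agree hA (mem_supp.mp (hS (mem_coe.mp hβ))) (mem_supp.mp (hS (mem_coe.mp hβ')))
          j fun i hi => ?_
        by_cases hiT : i ∈ T
        · rw [← hb.2 i hiT, ← hb'.2 i hiT]
        · have hiU : i ∈ U := by
            rw [hU, mem_compl, mem_insert]
            push Not
            exact ⟨hi, hiT⟩
          exact congrFun h ⟨i, hiU⟩
      refine h1.trans (le_of_eq ?_)
      rw [Finset.card_univ, Fintype.card_fun, Fintype.card_fin, Fintype.card_coe, hUcard]
    calc (S.card : ℝ) ≤ ((n ^ (k - T.card) : ℕ) : ℝ) := by exact_mod_cast hle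
      _ = ((n ^ k : ℕ) : ℝ) * (1 / (n : ℝ)) ^ T.card := by
        push_cast
        rw [one_div, inv_pow, pow_sub₀ _ hn'.ne' hTk]

/-- action of a tuple of permutations on arrays. -/
def act (σ : Fin (k + 1) → Equiv.Perm (Fin n)) (A : (Fin (k + 1) → Fin n) → Fin 2) :
    (Fin (k + 1) → Fin n) → Fin 2 := fun α => A fun j => (σ j).symm (α j)

lemma act_mem (σ : Fin (k + 1) → Equiv.Perm (Fin n)) {A : (Fin (k + 1) → Fin n) → Fin 2}
    (hA : A ∈ HDPerm k n) : act σ A ∈ HDPerm k n := by
  intro α j
  obtain ⟨i0, hi0, hu⟩ := hA (fun j => (σ j).symm (α j)) j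
  have hupd : ∀ i, (fun j' => (σ j').symm (Function.update α j i j')) =
      Function.update (fun j => (σ j).symm (α j)) j ((σ j).symm i) := by
    intro i
    funext j'
    by_cases h : j' = j
    · subst h; simp
    · rw [Function.update_of_ne h, Function.update_of_ne h]
  refine ⟨σ j i0, ?_, fun i hi => ?_⟩
  · simp only [act]
    rw [hupd, Equiv.symm_apply_apply]
    exact hi0
  · simp only [act] at hi
    rw [hupd] at hi
    have := hu _ hi
    rw [← this, Equiv.apply_symm_apply]

lemma act_inv (σ : Fin (k + 1) → Equiv.Perm (Fin n)) (A : (Fin (k + 1) → Fin n) → Fin 2) :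
    act σ⁻¹ (act σ A) = A := by
  funext α
  simp only [act]
  congr 1
  funext j
  simp [Equiv.Perm.inv_def]

lemma act_inv' (σ : Fin (k + 1) → Equiv.Perm (Fin n)) (A : (Fin (k + 1) → Fin n) → Fin 2) :
    act σ (act σ⁻¹ A) = A := by
  funext α
  simp only [act]
  congr 1
  funext j
  simp [Equiv.Perm.inv_def]

lemma prob_le (bad : ((Fin (k + 1) → Fin n) → Fin 2) → Prop) (δ : ℝ) (hδ : 0 ≤ δ)
    (h : ∀ A ∈ HDPerm k n, ∀ B : Finset (Fin (k + 1) → Equiv.Perm (Fin n)),
      (∀ σ ∈ B, bad (act σ A)) →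
      (B.card : ℝ) ≤ (Fintype.card (Fin (k + 1) → Equiv.Perm (Fin n)) : ℝ) * δ) :
    prob k n {A | bad A} ≤ δ := by
  classical
  set L : Finset ((Fin (k + 1) → Fin n) → Fin 2) := univ.filter fun A => A ∈ HDPerm k n with hL
  have hLmem : ∀ A, A ∈ L ↔ A ∈ HDPerm k n := fun A => by simp [hL]
  have h1 : (HDPerm k n).ncard = L.card := by
    rw [← Set.ncard_coe_finset]
    congr 1
    ext A
    simp [hL]
  have h2 : (HDPerm k n ∩ {A | bad A}).ncard = (L.filter bad).card := by
    rw [← Set.ncard_coe_finset]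
    congr 1
    ext A
    simp [hL]
  unfold prob
  rw [h1, h2]
  rcases L.eq_empty_or_nonempty with hemp | hne
  · rw [hemp]; simpa using hδ
  have hLpos : (0 : ℝ) < L.card := by exact_mod_cast hne.card_pos
  set N := Fintype.card (Fin (k + 1) → Equiv.Perm (Fin n)) with hN
  have hNpos : (0 : ℝ) < N := by exact_mod_cast Fintype.card_pos
  have h3 : ∀ σ : Fin (k + 1) → Equiv.Perm (Fin n),
      (L.filter fun A => bad (act σ A)).card = (L.filter bad).card := by
    intro σ
    refine Finset.card_nbij' (act σ) (act σ⁻¹) ?_ ?_ ?_ ?_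
    · intro A hA
      simp only [coe_filter, Set.mem_ofPred_eq, hLmem] at hA ⊢
      exact ⟨act_mem σ hA.1, hA.2⟩
    · intro A hA
      simp only [coe_filter, Set.mem_ofPred_eq, hLmem] at hA ⊢
      refine ⟨act_mem _ hA.1, ?_⟩
      rw [act_inv']; exact hA.2
    · intro A _; exact act_inv σ A
    · intro A _; exact act_inv' σ A
  have h4 : N * (L.filter bad).card =
      ∑ A ∈ L, (univ.filter fun σ : Fin (k + 1) → Equiv.Perm (Fin n) => bad (act σ A)).card := by
    calc N * (L.filter bad).card = ∑ σ : Fin (k + 1) → Equiv.Perm (Fin n),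
          (L.filter fun A => bad (act σ A)).card := by
          simp_rw [h3]
          rw [Finset.sum_const, Finset.card_univ, smul_eq_mul]
      _ = ∑ σ : Fin (k + 1) → Equiv.Perm (Fin n), ∑ A ∈ L, if bad (act σ A) then 1 else 0 := by
          simp_rw [Finset.card_filter]
      _ = ∑ A ∈ L, ∑ σ : Fin (k + 1) → Equiv.Perm (Fin n), if bad (act σ A) then 1 else 0 :=
          Finset.sum_comm
      _ = _ := by simp_rw [Finset.card_filter]
  have h5 : (N : ℝ) * ((L.filter bad).card : ℝ) ≤ L.card * (N * δ) := by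
    have h6 : (N : ℝ) * ((L.filter bad).card : ℝ) = ∑ A ∈ L,
        ((univ.filter fun σ : Fin (k + 1) → Equiv.Perm (Fin n) => bad (act σ A)).card : ℝ) := by
      exact_mod_cast h4
    rw [h6]
    calc _ ≤ ∑ _A ∈ L, (N : ℝ) * δ := by
          refine Finset.sum_le_sum fun A hA => h A ((hLmem A).mp hA) _ fun σ hσ => ?_
          exact (mem_filter.mp hσ).2
      _ = _ := by rw [Finset.sum_const, nsmul_eq_mul]
  rw [div_le_iff₀ hLpos]
  have h7 : (N : ℝ) * ((L.filter bad).card : ℝ) ≤ N * (δ * L.card) := by linarith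
  exact le_of_mul_le_mul_left h7 hNpos

lemma bddAbove_len (A : (Fin (k + 1) → Fin n) → Fin 2) :
    BddAbove {m | ∃ s : Fin m → Fin (k + 1) → Fin n, IsMonoSeq A m s} := by
  refine ⟨n, ?_⟩
  rintro m ⟨s, hs⟩
  have hinj : Function.Injective fun i => s i 0 := by
    rcases hs.2 0 with h | h
    · exact h.injective
    · exact h.injective
  have := Fintype.card_le_of_injective _ hinj
  simpa using this

lemma exists_seq (A : (Fin (k + 1) → Fin n) → Fin 2) :
    ∃ s : Fin (H A) → Fin (k + 1) → Fin n, IsMonoSeq A (H A) s := by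
  have hne : {m | ∃ s : Fin m → Fin (k + 1) → Fin n, IsMonoSeq A m s}.Nonempty :=
    ⟨0, fun i => i.elim0, fun i => i.elim0, fun j => Or.inl fun i => i.elim0⟩
  exact Nat.sSup_mem hne (bddAbove_len A)

lemma clen_le_H (A : (Fin (k + 1) → Fin n) → Fin 2) (σ : Fin (k + 1) → Equiv.Perm (Fin n)) :
    clen (supp A) (ppos σ) ≤ H (act σ A) := by
  obtain ⟨C, hC, hch, hcard⟩ := exists_clen (supp A) (ppos σ)
  obtain ⟨q, hq, hqB⟩ := exists_enum (Nat.succ_pos k) (ppos σ) C hch _ hcard
  refine le_csSup (bddAbove_len _) ⟨fun i j => σ j (q i j), fun i => ?_, fun j => Or.inl ?_⟩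
  · simp only [act, Equiv.symm_apply_apply]
    exact mem_supp.mp (hC (hq i))
  · intro i i' hii
    have := hqB i i' hii j
    simp only [ppos, Nat.cast_lt] at this
    exact this

/-- reflections in the coordinates of `D`. -/
def refl (D : Fin (k + 1) → Bool) : Fin (k + 1) → Equiv.Perm (Fin n) :=
  fun j => if D j then Fin.revPerm else 1

lemma H_le_clen (A : (Fin (k + 1) → Fin n) → Fin 2) (σ : Fin (k + 1) → Equiv.Perm (Fin n)) :
    ∃ D : Fin (k + 1) → Bool, H (act σ A) ≤ clen (supp A) (ppos (refl D * σ)) := by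
  classical
  obtain ⟨s, hs1, hs2⟩ := exists_seq (act σ A)
  let D : Fin (k + 1) → Bool := fun j => ! decide (StrictMono fun i => s i j)
  refine ⟨D, ?_⟩
  let q : Fin (H (act σ A)) → Fin (k + 1) → Fin n := fun i j => (σ j).symm (s i j)
  have hqs : ∀ i, q i ∈ supp A := fun i => mem_supp.mpr (hs1 i)
  have hB : ∀ i i', i < i' → Below (ppos (refl D * σ)) (q i) (q i') := by
    intro i i' hii j
    simp only [ppos, Pi.mul_apply, Equiv.Perm.mul_apply, q, Equiv.apply_symm_apply, refl,
      Nat.cast_lt]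
    by_cases h : StrictMono fun i => s i j
    · have hD : D j = false := by simp [D, h]
      rw [hD]
      simpa using h hii
    · have hD : D j = true := by simp [D, h]
      rw [hD]
      have h2 : StrictAnti fun i => s i j := by
        rcases hs2 j with h3 | h3
        · exact absurd h3 h
        · exact h3
      have h3 := h2 hii
      simp only [if_true, Fin.revPerm_apply, Fin.val_fin_lt, Fin.rev_lt_rev]
      exact h3
  have hqinj : Function.Injective q := by
    intro i i' h
    by_contra hne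
    rcases lt_or_gt_of_ne hne with hlt | hlt
    · have := hB i i' hlt 0
      rw [h] at this
      exact lt_irrefl _ this
    · have := hB i' i hlt 0
      rw [h] at this
      exact lt_irrefl _ this
  have hcard : (univ.image q).card = H (act σ A) := by
    rw [card_image_of_injective _ hqinj]; simp
  rw [← hcard]
  refine le_clen ?_ ?_
  · intro α hα
    obtain ⟨i, -, rfl⟩ := mem_image.mp hα
    exact hqs i
  · intro α hα β hβ hne
    obtain ⟨i, -, rfl⟩ := mem_image.mp hα
    obtain ⟨i', -, rfl⟩ := mem_image.mp hβ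
    rcases lt_trichotomy i i' with h | h | h
    · exact Or.inl (hB i i' h)
    · exact absurd (by rw [h]) hne
    · exact Or.inr (hB i' i h)

/-- bound on the number of bad tuples of permutations. -/
lemma card_bad_le (A : (Fin (k + 1) → Fin n) → Fin 2) (lo hi δ1 δ2 : ℝ) (h1 : 0 ≤ δ1)
    (h2 : 0 ≤ δ2)
    (hlo : labels (Fin (k + 1) × Fin n) {w | (clen (supp A) (pos w) : ℝ) < lo} ≤
      ENNReal.ofReal δ1)
    (hhi : labels (Fin (k + 1) × Fin n) {w | hi ≤ (clen (supp A) (pos w) : ℝ)} ≤
      ENNReal.ofReal δ2)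
    (B : Finset (Fin (k + 1) → Equiv.Perm (Fin n)))
    (hB : ∀ σ ∈ B, (H (act σ A) : ℝ) < lo ∨ hi ≤ (H (act σ A) : ℝ)) :
    (B.card : ℝ) ≤ (Fintype.card (Fin (k + 1) → Equiv.Perm (Fin n)) : ℝ) *
      (δ1 + 2 ^ (k + 1) * δ2) := by
  classical
  set N := Fintype.card (Fin (k + 1) → Equiv.Perm (Fin n)) with hN
  have c1 := card_perm_le (supp A) (fun m => (m : ℝ) < lo) δ1 h1 hlo
  have c2 := card_perm_le (supp A) (fun m => hi ≤ (m : ℝ)) δ2 h2 hhi
  have c3 : ∀ D : Fin (k + 1) → Bool,
      ((univ : Finset (Fin (k + 1) → Equiv.Perm (Fin n))).filter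
        (fun σ => hi ≤ (clen (supp A) (ppos (refl D * σ)) : ℝ))).card =
      ((univ : Finset (Fin (k + 1) → Equiv.Perm (Fin n))).filter
        (fun σ => hi ≤ (clen (supp A) (ppos σ) : ℝ))).card := by
    intro D
    rw [Finset.card_filter, Finset.card_filter]
    exact Equiv.sum_comp (Equiv.mulLeft (refl D))
      (fun σ => if hi ≤ (clen (supp A) (ppos σ) : ℝ) then 1 else 0)
  have hsub : B ⊆ (univ.filter fun σ => (clen (supp A) (ppos σ) : ℝ) < lo) ∪
      univ.biUnion fun D : Fin (k + 1) → Bool =>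
        univ.filter fun σ => hi ≤ (clen (supp A) (ppos (refl D * σ)) : ℝ) := by
    intro σ hσ
    rcases hB σ hσ with h | h
    · refine mem_union_left _ (mem_filter.mpr ⟨mem_univ _, ?_⟩)
      refine lt_of_le_of_lt ?_ h
      exact_mod_cast clen_le_H A σ
    · obtain ⟨D, hD⟩ := H_le_clen A σ
      refine mem_union_right _ (mem_biUnion.mpr ⟨D, mem_univ _, mem_filter.mpr ⟨mem_univ _, ?_⟩⟩)
      refine h.trans ?_
      exact_mod_cast hD
  have hc : B.card ≤ ((univ : Finset (Fin (k + 1) → Equiv.Perm (Fin n))).filter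
      fun σ => (clen (supp A) (ppos σ) : ℝ) < lo).card +
      2 ^ (k + 1) * ((univ : Finset (Fin (k + 1) → Equiv.Perm (Fin n))).filter
        (fun σ => hi ≤ (clen (supp A) (ppos σ) : ℝ))).card := by
    refine (card_le_card hsub).trans ((card_union_le _ _).trans (Nat.add_le_add_left ?_ _))
    refine card_biUnion_le.trans ?_
    rw [Finset.sum_congr rfl fun D _ => c3 D, Finset.sum_const, smul_eq_mul]
    refine Nat.mul_le_mul_right _ ?_
    simp
  calc (B.card : ℝ) ≤ ((univ : Finset (Fin (k + 1) → Equiv.Perm (Fin n))).filter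
      fun σ => (clen (supp A) (ppos σ) : ℝ) < lo).card +
      2 ^ (k + 1) * ((univ : Finset (Fin (k + 1) → Equiv.Perm (Fin n))).filter
        (fun σ => hi ≤ (clen (supp A) (ppos σ) : ℝ))).card := by exact_mod_cast hc
    _ ≤ (N : ℝ) * δ1 + 2 ^ (k + 1) * ((N : ℝ) * δ2) := by gcongr
    _ = _ := by ring

end Aux

/-- For every `k ≥ 1` there is a constant `c` such that the length of the longest monotone
subsequence of a uniformly random order-`n` `k`-dimensional permutation, divided by
`n ^ (k / (k + 1))`, converges to `c` in probability. -/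
theorem result (k : ℕ) (hk : 1 ≤ k) :
    ∃ c : ℝ, ∀ ε : ℝ, 0 < ε →
      Tendsto (fun n : ℕ => prob k n
        {A | ε < |(H A : ℝ) * (n : ℝ) ^ (-((k : ℝ) / ((k : ℝ) + 1))) - c|}) atTop (nhds 0) := by
  have hd : 0 < k + 1 := Nat.succ_pos k
  obtain ⟨b, hb, P1, P2⟩ := exists_const hd
  refine ⟨b, fun ε hε => ?_⟩
  rw [Metric.tendsto_atTop]
  intro δ hδ
  obtain ⟨N1, η1, hη1, hlow⟩ := lower_thm hd hb P2 ε (δ / 4) hε (by positivity)
  obtain ⟨N2, η2, hη2, hupp⟩ := upper_thm hd hb P1 P2 ε (δ / 4 / 2 ^ (k + 1)) hε (by positivity)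
  obtain ⟨t1, ht1⟩ := exists_rt_ge hd (max N1 N2)
  set η := min η1 η2 with hη
  have hη0 : 0 < η := lt_min hη1 hη2
  refine ⟨max (max 1 t1) ⌈1 / η ^ (k + 1)⌉₊, fun n hn => ?_⟩
  have hn1 : 1 ≤ n := ((le_max_left _ _).trans (le_max_left _ _)).trans hn
  have hnt : t1 ≤ n := ((le_max_right _ _).trans (le_max_left _ _)).trans hn
  have hn3 : ⌈1 / η ^ (k + 1)⌉₊ ≤ n := (le_max_right _ _).trans hn
  have hn0 : (0 : ℝ) < n := by exact_mod_cast hn1
  have hnη : 1 / η ^ (k + 1) ≤ n := by
    calc 1 / η ^ (k + 1) ≤ (⌈1 / η ^ (k + 1)⌉₊ : ℝ) := Nat.le_ceil _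
      _ ≤ n := by exact_mod_cast hn3
  set m := rt (k + 1) (((n ^ k : ℕ) : ℝ)) with hm
  have hnk : (n : ℝ) ≤ ((n ^ k : ℕ) : ℝ) := by
    have : n ≤ n ^ k := Nat.le_self_pow (by omega) n
    exact_mod_cast this
  have hmge : max N1 N2 ≤ m := (ht1 n hnt).trans (rt_mono _ hn0.le hnk)
  have hm0 : 0 < m := by
    have h1 : (1 : ℝ) ≤ ((n ^ k : ℕ) : ℝ) := le_trans (by exact_mod_cast hn1) hnk
    have := one_le_rt (k + 1) h1
    linarith
  have hrm : 1 / (n : ℝ) * m ≤ η := by
    have h1 : 1 / (n : ℝ) = rt (k + 1) ((1 / (n : ℝ)) ^ (k + 1)) :=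
      (rt_pow' hd (by positivity)).symm
    rw [h1, hm, ← rt_mul _ (by positivity) (by positivity), rt_le_iff hd hη0.le (by positivity)]
    have h2 : (1 / (n : ℝ)) ^ (k + 1) * ((n ^ k : ℕ) : ℝ) = 1 / n := by
      push_cast
      rw [one_div, inv_pow, pow_succ]
      field_simp
    rw [h2, div_le_iff₀ hn0]
    rw [div_le_iff₀ (by positivity)] at hnη
    linarith
  have hmpow : (n : ℝ) ^ (-((k : ℝ) / ((k : ℝ) + 1))) = m⁻¹ := by
    rw [Real.rpow_neg hn0.le, hm]
    congr 1
    unfold rt
    push_cast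
    rw [← Real.rpow_natCast, ← Real.rpow_mul hn0.le, div_eq_mul_inv]
  have hmain : prob k n {A | ε < |(H A : ℝ) * (n : ℝ) ^ (-((k : ℝ) / ((k : ℝ) + 1))) - b|} ≤
      δ / 2 := by
    refine prob_le (fun A => ε < |(H A : ℝ) * (n : ℝ) ^ (-((k : ℝ) / ((k : ℝ) + 1))) - b|)
      (δ / 2) (by positivity) fun A hA B hB => ?_
    have hcard := card_supp hn1 hA
    have hreg := reg_supp hn1 hA
    have hl := hlow (Fin n) (supp A) (1 / n) (by positivity) hreg (by
      rw [hcard]; exact (le_max_left _ _).trans hmge) (by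
      rw [hcard]; exact hrm.trans (min_le_left _ _))
    have hu := hupp (Fin n) (supp A) (1 / n) (by positivity) hreg (by
      rw [hcard]; exact (le_max_right _ _).trans hmge) (by
      rw [hcard]; exact hrm.trans (min_le_right _ _))
    rw [hcard] at hl hu
    have := card_bad_le A ((b - ε) * m) ((b + ε) * m) (δ / 4) (δ / 4 / 2 ^ (k + 1))
      (by positivity) (by positivity) hl hu B (fun σ hσ => by
        have h1 := hB σ hσ
        rw [hmpow, ← div_eq_mul_inv] at h1
        rcases lt_abs.mp h1 with h2 | h2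
        · right
          have h3 : b + ε < (H (act σ A) : ℝ) / m := by linarith
          rw [lt_div_iff₀ hm0] at h3
          exact h3.le
        · left
          have h3 : (H (act σ A) : ℝ) / m < b - ε := by linarith
          rwa [div_lt_iff₀ hm0] at h3)
    refine this.trans (le_of_eq ?_)
    congr 1
    field_simp
    norm_num
  rw [Real.dist_eq, sub_zero, abs_of_nonneg]
  · linarith
  · unfold prob
    positivity

end Pool.Agent.Results.MP_f702fa_pr.LimitConstant
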